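import Pool.Agent.Lib.MP_abd978_an.H65.Opl

/-!
# Module DIR: the Dirichlet problem
-/

set_option autoImplicit false

open MeasureTheory Metric Set Filter Topology ContDiff
open scoped Gradient RealInnerProductSpace

namespace Pool.Agent.Lib.MP_abd978_an.H65

theorem test_add {n : ℕ} {D : Set (E n)} {φ ψ : E n → ℝ} (h : Test D φ) (h' : Test D ψ) :
    Test D (fun x => φ x + ψ x) :=
  ⟨h.1.add h'.1, h.2.1.add h'.2.1, (tsupport_add _ _).trans (union_subset h.2.2 h'.2.2)⟩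

theorem test_const_mul {n : ℕ} {D : Set (E n)} {φ : E n → ℝ} (c : ℝ) (h : Test D φ) :
    Test D (fun x => c * φ x) :=
  ⟨contDiff_const.mul h.1, HasCompactSupport.mul_left h.2.1,
    (tsupport_mul_subset_right (f := fun _ => c) (g := φ)).trans h.2.2⟩

theorem test_zero {n : ℕ} {D : Set (E n)} : Test D (fun _ : E n => (0 : ℝ)) := by
  have h : tsupport (fun _ : E n => (0 : ℝ)) = ∅ := by
    rw [tsupport_eq_empty_iff]
    rfl
  refine ⟨contDiff_const, ?_, ?_⟩
  · rw [HasCompactSupport, h]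
    exact isCompact_empty
  · rw [h]
    exact empty_subset _

theorem test_diff {n : ℕ} {D : Set (E n)} {φ : E n → ℝ} (h : Test D φ) (x : E n) :
    DifferentiableAt ℝ φ x := h.1.differentiable (by simp) x

theorem grad_const_mul {n : ℕ} {φ : E n → ℝ} {x : E n} (c : ℝ) (hf : DifferentiableAt ℝ φ x) :
    ∇ (fun y => c * φ y) x = c • ∇ φ x := by
  have h : HasFDerivAt (fun y => c * φ y) (c • fderiv ℝ φ x) x := hf.hasFDerivAt.const_mul c
  rw [grad_of_hasFDerivAt h, map_smulₛₗ]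
  rfl

theorem grad_zero {n : ℕ} (x : E n) : ∇ (fun _ : E n => (0 : ℝ)) x = 0 := by
  have h : HasFDerivAt (fun _ : E n => (0 : ℝ)) (0 : E n →L[ℝ] ℝ) x := hasFDerivAt_const _ _
  rw [grad_of_hasFDerivAt h, map_zero]

/-- the gradients of test functions in `L^p` -/
def gradSub {n : ℕ} (p : ℝ) [Fact (1 ≤ ENNReal.ofReal p)] (μ : Measure (E n)) (D : Set (E n)) :
    Submodule ℝ (Lp (E n) (ENNReal.ofReal p) μ) where
  carrier := {ξ | ∃ φ : E n → ℝ, Test D φ ∧ ∀ᵐ x ∂μ, ξ x = ∇ φ x}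
  add_mem' := by
    rintro ξ η ⟨φ, hφ, h⟩ ⟨ψ, hψ, h'⟩
    refine ⟨fun x => φ x + ψ x, test_add hφ hψ, ?_⟩
    filter_upwards [h, h', Lp.coeFn_add ξ η] with x hx hx' hx''
    rw [hx'', Pi.add_apply, hx, hx', grad_add (test_diff hφ x) (test_diff hψ x)]
  zero_mem' := by
    refine ⟨fun _ => 0, test_zero, ?_⟩
    filter_upwards [Lp.coeFn_zero (E n) (ENNReal.ofReal p) μ] with x hx
    rw [hx, grad_zero, Pi.zero_apply]
  smul_mem' := by
    rintro c ξ ⟨φ, hφ, h⟩
    refine ⟨fun x => c * φ x, test_const_mul c hφ, ?_⟩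
    filter_upwards [h, Lp.coeFn_smul c ξ] with x hx hx''
    rw [hx'', Pi.smul_apply, hx, grad_const_mul c (test_diff hφ x)]

theorem dir (hI : IntgStatement) (hS : Sob1Statement) (hN : NestStatement) (hM : MintyStatement)
    (hO : OplStatement) : DirStatement := by
  intro n p μ a α β D z R g hop hD hDR hg
  have hp := hop.hp
  have hp0 : 0 < p := by linarith
  have hα := hop.hα
  have hβ : 0 < β := hop.hα.trans_le hop.hαβ
  have := hop.lf
  have : Fact (1 ≤ ENNReal.ofReal p) := ⟨one_le_ofReal hp⟩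
  obtain ⟨F, hF, hmono, hhemi⟩ := hO n p μ a α β hop
  set γ : Lp (E n) (ENNReal.ofReal p) μ := (hg.memLp_grad (μ := μ) (ENNReal.ofReal p)).toLp _
    with hγ
  have hγx : ∀ᵐ x ∂μ, γ x = ∇ g x := MemLp.coeFn_toLp _
  set G0 : Submodule ℝ (Lp (E n) (ENNReal.ofReal p) μ) :=
    (gradSub p μ D).topologicalClosure with hG0
  set M : ℝ := β / α * ‖γ‖ + 1 with hMdef
  have h1le : 1 ≤ β / α := by
    rw [le_div_iff₀ hα, one_mul]
    exact hop.hαβ
  have hγM : ‖γ‖ ≤ M := by
    have := mul_le_mul_of_nonneg_right h1le (norm_nonneg γ)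
    linarith
  let K : Set (Lp (E n) (ENNReal.ofReal p) μ) := {ξ | ξ ∈ G0 ∧ ‖γ + ξ‖ ≤ M}
  have hK0 : (0 : Lp (E n) (ENNReal.ofReal p) μ) ∈ K := ⟨G0.zero_mem, by rwa [add_zero]⟩
  have hKcl : IsClosed K := by
    refine IsClosed.inter (Submodule.isClosed_topologicalClosure _) ?_
    exact isClosed_le (continuous_norm.comp (continuous_const.add continuous_id)) continuous_const
  have hKcv : Convex ℝ K := by
    refine (Submodule.convex G0).inter ?_
    intro x hx y hy s t hs ht hst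
    show ‖γ + (s • x + t • y)‖ ≤ M
    have h1 : γ + (s • x + t • y) = s • (γ + x) + t • (γ + y) := by
      have h2 : γ = s • γ + t • γ := by rw [← add_smul, hst, one_smul]
      rw [smul_add, smul_add]
      nth_rewrite 1 [h2]
      abel
    rw [h1]
    refine (norm_add_le _ _).trans ?_
    rw [norm_smul, norm_smul, Real.norm_of_nonneg hs, Real.norm_of_nonneg ht]
    have h3 : ‖γ + x‖ ≤ M := hx
    have h4 : ‖γ + y‖ ≤ M := hy
    calc s * ‖γ + x‖ + t * ‖γ + y‖ ≤ s * M + t * M :=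
          add_le_add (mul_le_mul_of_nonneg_left h3 hs) (mul_le_mul_of_nonneg_left h4 ht)
      _ = M := by rw [← add_mul, hst, one_mul]
  have hKbd : Bornology.IsBounded K := by
    refine (isBounded_iff_forall_norm_le).2 ⟨M + ‖γ‖, fun x hx => ?_⟩
    have h1 : x = (γ + x) - γ := by abel
    rw [h1]
    exact (norm_sub_le _ _).trans (add_le_add hx.2 le_rfl)
  have hFip : Fip K := hN n p μ K hp hKcl hKcv hKbd
  obtain ⟨ξ, hξK, hξ⟩ := hM (Lp (E n) (ENNReal.ofReal p) μ) K (fun x => F (γ + x)) ⟨0, hK0⟩ hKcv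
    hFip (fun x y => by
      have h1 := hmono (γ + x) (γ + y)
      rwa [add_sub_add_left_eq_sub] at h1)
    (fun x y => by
      have h1 := hhemi (γ + x) (γ + y)
      rw [add_sub_add_left_eq_sub] at h1
      simpa only [add_assoc] using h1)
  set v : Lp (E n) (ENNReal.ofReal p) μ := γ + ξ with hv
  have hvx : ∀ᵐ x ∂μ, v x = ∇ g x + ξ x := by
    filter_upwards [Lp.coeFn_add γ ξ, hγx] with x hx hx'
    rw [hx, Pi.add_apply, hx']
  -- the norm of `v` is less than `M`
  have hlow : α * ‖v‖ ^ p ≤ F v v := by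
    rw [hF, lp_norm_rpow hp, ← integral_const_mul]
    have h1 : Integrable (fun x => ‖v x‖ ^ p) μ := by
      have h2 := (Lp.memLp v).integrable_norm_rpow (ofReal_ne_zero' hp) ENNReal.ofReal_ne_top
      rwa [toReal_ofReal' hp] at h2
    exact integral_mono (h1.const_mul α)
      (hI n p μ μ a α β v v hop (Lp.memLp v) (Lp.memLp v)).1 fun x => hop.ell x (v x)
  have hup : F v γ ≤ β * (‖v‖ ^ (p - 1) * ‖γ‖) := by
    have h1 := (hI n p μ μ a α β v γ hop (Lp.memLp v) (Lp.memLp γ)).2.2.2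
    rw [lp_norm_rpow' hp, ← lp_norm_eq hp, ← hF] at h1
    exact (le_abs_self _).trans h1
  have hlt : ‖v‖ < M := by
    have h0 : 0 ≤ F v (0 - ξ) := hξ 0 hK0
    have h1 : F v v = F v γ - F v (0 - ξ) := by
      rw [← map_sub]
      congr 1
      rw [hv]
      abel
    have h2 : α * ‖v‖ ^ p ≤ β * (‖v‖ ^ (p - 1) * ‖γ‖) := by linarith
    rcases (norm_nonneg v).eq_or_lt with h3 | h3
    · rw [← h3]
      positivity
    · have h4 : ‖v‖ ^ p = ‖v‖ ^ (p - 1) * ‖v‖ := by
        rw [← Real.rpow_add_one h3.ne']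
        congr 1
        ring
      have h5 : 0 < ‖v‖ ^ (p - 1) := Real.rpow_pos_of_pos h3 _
      rw [h4] at h2
      have h6 : α * ‖v‖ ≤ β * ‖γ‖ := by
        refine le_of_mul_le_mul_left ?_ h5
        linarith [h2]
      have h7 : ‖v‖ ≤ β / α * ‖γ‖ := by
        rw [div_mul_eq_mul_div, le_div_iff₀ hα]
        linarith
      linarith
  -- `F v` vanishes on `G0`
  have hge : ∀ ζ ∈ G0, 0 ≤ F v ζ := by
    intro ζ hζ
    set t : ℝ := (M - ‖v‖) / (‖ζ‖ + 1) with ht
    have ht0 : 0 < t := div_pos (by linarith) (by positivity)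
    have hmem : ξ + t • ζ ∈ K := by
      refine ⟨G0.add_mem hξK.1 (G0.smul_mem t hζ), ?_⟩
      rw [← add_assoc]
      refine (norm_add_le _ _).trans ?_
      rw [norm_smul, Real.norm_of_nonneg ht0.le]
      have h1 : t * ‖ζ‖ ≤ M - ‖v‖ := by
        rw [ht, div_mul_eq_mul_div, div_le_iff₀ (by positivity)]
        have := mul_le_mul_of_nonneg_left (show ‖ζ‖ ≤ ‖ζ‖ + 1 by linarith)
          (show 0 ≤ M - ‖v‖ by linarith)
        exact this
      linarith
    have h2 := hξ _ hmem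
    rw [add_sub_cancel_left, map_smul, smul_eq_mul] at h2
    exact nonneg_of_mul_nonneg_right h2 ht0
  have hzero : ∀ ζ ∈ G0, F v ζ = 0 := by
    intro ζ hζ
    have h1 := hge ζ hζ
    have h2 := hge (-ζ) (G0.neg_mem hζ)
    rw [map_neg] at h2
    linarith
  -- approximation of `ξ`
  obtain ⟨ξs, hξs, hlim⟩ := mem_closure_iff_seq_limit.1
    (show ξ ∈ closure ((gradSub p μ D : Submodule ℝ _) : Set (Lp (E n) (ENNReal.ofReal p) μ)) from
      by
        have h1 : ξ ∈ (gradSub p μ D).topologicalClosure := hξK.1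
        rwa [← SetLike.mem_coe, Submodule.topologicalClosure_coe] at h1)
  choose φ hφT hφx using hξs
  obtain ⟨C, hC, hsob⟩ := hS n p μ hop.toGeo
  set R' : ℝ := max R 1 with hR'
  have hR'0 : 0 < R' := lt_max_of_lt_right one_pos
  have hDR' : D ⊆ ball z R' := hDR.trans (ball_subset_ball (le_max_left _ _))
  set f : ℕ → Lp ℝ (ENNReal.ofReal p) μ := fun i =>
    ((hφT i).memLp (μ := μ) (ENNReal.ofReal p)).toLp _ with hf
  have hfx : ∀ i, ∀ᵐ x ∂μ, f i x = φ i x := fun i => MemLp.coeFn_toLp _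
  have hnormR : ∀ h : Lp ℝ (ENNReal.ofReal p) μ, ‖h‖ = (∫ x, ‖h x‖ ^ p ∂μ) ^ (1 / p) := by
    intro h
    rw [Lp.norm_def, (Lp.memLp h).eLpNorm_eq_integral_rpow_norm (ofReal_ne_zero' hp)
      ENNReal.ofReal_ne_top, toReal_ofReal' hp, ENNReal.toReal_ofReal (by positivity), one_div]
  have hdist : ∀ i j, ‖f i - f j‖ ≤ (C * R' ^ p) ^ (1 / p) * ‖ξs i - ξs j‖ := by
    intro i j
    have hT : Test (ball z R') (fun x => φ i x + (-1) * φ j x) :=
      (test_add (hφT i) (test_const_mul (-1) (hφT j))).mono hDR'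
    have h1 := hsob z R' _ _ hR'0 (hT.h0 (μ := μ) (p := p))
    have h2 : ∫ x, ‖(f i - f j) x‖ ^ p ∂μ = ∫ x, |φ i x + (-1) * φ j x| ^ p ∂μ := by
      refine integral_congr_ae ?_
      filter_upwards [Lp.coeFn_sub (f i) (f j), hfx i, hfx j] with x hx hx' hx''
      rw [hx, Pi.sub_apply, hx', hx'', Real.norm_eq_abs]
      congr 2
      ring
    have h3 : ∫ x, ‖(ξs i - ξs j) x‖ ^ p ∂μ =
        ∫ x, ‖∇ (fun x => φ i x + (-1) * φ j x) x‖ ^ p ∂μ := by
      refine integral_congr_ae ?_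
      filter_upwards [Lp.coeFn_sub (ξs i) (ξs j), hφx i, hφx j] with x hx hx' hx''
      rw [hx, Pi.sub_apply, hx', hx'', grad_add (test_diff (hφT i) x)
        (test_diff (test_const_mul (-1) (hφT j)) x), grad_const_mul (-1) (test_diff (hφT j) x)]
      congr 2
      rw [neg_one_smul, sub_eq_add_neg]
    rw [hnormR, lp_norm_eq hp, h2, h3, ← Real.mul_rpow (by positivity)
      (integral_nonneg fun x => by positivity)]
    exact Real.rpow_le_rpow (integral_nonneg fun x => by positivity) h1 (by positivity)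
  have hcauchy : CauchySeq f := by
    have hc := hlim.cauchySeq
    set L := (C * R' ^ p) ^ (1 / p) with hL
    have hL0 : 0 ≤ L := by positivity
    rw [Metric.cauchySeq_iff] at hc ⊢
    intro ε hε
    obtain ⟨N, hN'⟩ := hc (ε / (L + 1)) (by positivity)
    refine ⟨N, fun i hi j hj => ?_⟩
    have h1 := hN' i hi j hj
    rw [dist_eq_norm] at h1 ⊢
    calc ‖f i - f j‖ ≤ L * ‖ξs i - ξs j‖ := hdist i j
      _ ≤ (L + 1) * ‖ξs i - ξs j‖ := mul_le_mul_of_nonneg_right (by linarith) (norm_nonneg _)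
      _ < (L + 1) * (ε / (L + 1)) := mul_lt_mul_of_pos_left h1 (by positivity)
      _ = ε := by field_simp
  obtain ⟨u0, hu0⟩ := cauchySeq_tendsto_of_complete hcauchy
  refine ⟨fun x => g x + u0 x, v, ⟨?_, ?_, φ, hφT, ?_, ?_⟩, ?_⟩
  · refine (Lp.memLp u0).ae_eq (Eventually.of_forall fun x => ?_)
    show u0 x = g x + u0 x - g x
    ring
  · exact (Lp.memLp v).sub (hg.memLp_grad _)
  · have h1 := (Lp.tendsto_Lp_iff_tendsto_eLpNorm' f u0).1 hu0
    refine h1.congr fun i => eLpNorm_congr_ae ?_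
    filter_upwards [hfx i] with x hx
    rw [Pi.sub_apply, hx]
    ring
  · have h1 := (Lp.tendsto_Lp_iff_tendsto_eLpNorm' ξs ξ).1 hlim
    refine h1.congr fun i => eLpNorm_congr_ae ?_
    filter_upwards [hφx i, hvx] with x hx hx'
    rw [Pi.sub_apply, hx, hx']
    congr 1
    abel
  · intro ψ hψ
    set ζ : Lp (E n) (ENNReal.ofReal p) μ := (hψ.memLp_grad (μ := μ) (ENNReal.ofReal p)).toLp _
      with hζ
    have hζx : ∀ᵐ x ∂μ, ζ x = ∇ ψ x := MemLp.coeFn_toLp _
    have hζG : ζ ∈ G0 := Submodule.le_topologicalClosure _ ⟨ψ, hψ, hζx⟩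
    have h1 := hzero ζ hζG
    rw [hF] at h1
    rw [← h1]
    refine integral_congr_ae ?_
    filter_upwards [hζx] with x hx
    rw [hx]

end Pool.Agent.Lib.MP_abd978_an.H65
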