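import Pool.Agent.Lib.MP_abd978_an.Interfaces

/-!
# Module OPL: the operator on `L^p`
-/

set_option autoImplicit false

open MeasureTheory Metric Set Filter Topology ContDiff
open scoped Gradient RealInnerProductSpace

namespace Pool.Agent.Lib.MP_abd978_an.H65

theorem ofReal_ne_zero' {p : ℝ} (hp : 1 < p) : ENNReal.ofReal p ≠ 0 := by
  simp only [ne_eq, ENNReal.ofReal_eq_zero, not_le]
  linarith

theorem toReal_ofReal' {p : ℝ} (hp : 1 < p) : (ENNReal.ofReal p).toReal = p :=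
  ENNReal.toReal_ofReal (by linarith)

/-- the norm of `L^p` as an integral -/
theorem lp_norm_eq {n : ℕ} {p : ℝ} {μ : Measure (E n)} (hp : 1 < p)
    (f : Lp (E n) (ENNReal.ofReal p) μ) : ‖f‖ = (∫ x, ‖f x‖ ^ p ∂μ) ^ (1 / p) := by
  rw [Lp.norm_def, (Lp.memLp f).eLpNorm_eq_integral_rpow_norm (ofReal_ne_zero' hp)
    ENNReal.ofReal_ne_top, toReal_ofReal' hp, ENNReal.toReal_ofReal (by positivity), one_div]

theorem lp_norm_rpow {n : ℕ} {p : ℝ} {μ : Measure (E n)} (hp : 1 < p)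
    (f : Lp (E n) (ENNReal.ofReal p) μ) : ‖f‖ ^ p = ∫ x, ‖f x‖ ^ p ∂μ := by
  rw [lp_norm_eq hp, ← Real.rpow_mul (integral_nonneg fun x => by positivity), one_div,
    inv_mul_cancel₀ (by linarith), Real.rpow_one]

theorem lp_norm_rpow' {n : ℕ} {p : ℝ} {μ : Measure (E n)} (hp : 1 < p)
    (f : Lp (E n) (ENNReal.ofReal p) μ) :
    (∫ x, ‖f x‖ ^ p ∂μ) ^ ((p - 1) / p) = ‖f‖ ^ (p - 1) := by
  have h0 : 0 ≤ ‖f‖ := by
    rw [Lp.norm_def]
    exact ENNReal.toReal_nonneg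
  rw [← lp_norm_rpow hp, ← Real.rpow_mul h0]
  congr 1
  field_simp

theorem opl (hI : IntgStatement) : OplStatement := by
  intro n p μ a α β _ hop
  have hp := hop.hp
  have hint : ∀ ξ η : Lp (E n) (ENNReal.ofReal p) μ, Integrable (fun x => ⟪a x (ξ x), η x⟫) μ :=
    fun ξ η => (hI n p μ μ a α β ξ η hop (Lp.memLp ξ) (Lp.memLp η)).1
  have hβ : 0 ≤ β := hop.hα.le.trans hop.hαβ
  have hbd : ∀ ξ η : Lp (E n) (ENNReal.ofReal p) μ,
      |∫ x, ⟪a x (ξ x), η x⟫ ∂μ| ≤ β * (‖ξ‖ ^ (p - 1) * ‖η‖) := by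
    intro ξ η
    have h := (hI n p μ μ a α β ξ η hop (Lp.memLp ξ) (Lp.memLp η)).2.2.2
    rwa [lp_norm_rpow' hp, ← lp_norm_eq hp] at h
  let F : Lp (E n) (ENNReal.ofReal p) μ → Lp (E n) (ENNReal.ofReal p) μ →L[ℝ] ℝ := fun ξ =>
    LinearMap.mkContinuous
      { toFun := fun η => ∫ x, ⟪a x (ξ x), η x⟫ ∂μ
        map_add' := by
          intro η η'
          rw [← integral_add (hint ξ η) (hint ξ η')]
          refine integral_congr_ae ?_
          filter_upwards [Lp.coeFn_add η η'] with x hx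
          rw [hx, Pi.add_apply, inner_add_right]
        map_smul' := by
          intro c η
          rw [RingHom.id_apply, smul_eq_mul, ← integral_const_mul]
          refine integral_congr_ae ?_
          filter_upwards [Lp.coeFn_smul c η] with x hx
          rw [hx, Pi.smul_apply, inner_smul_right] }
      (β * ‖ξ‖ ^ (p - 1)) (by
        intro η
        rw [Real.norm_eq_abs, mul_assoc]
        exact hbd ξ η)
  have hF : ∀ ξ η, F ξ η = ∫ x, ⟪a x (ξ x), η x⟫ ∂μ := fun ξ η => rfl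
  refine ⟨F, hF, ?_, ?_⟩
  · intro ξ η
    rw [sub_apply, hF, hF, ← integral_sub (hint _ _) (hint _ _)]
    refine integral_nonneg_of_ae ?_
    filter_upwards [Lp.coeFn_sub ξ η] with x hx
    rw [Pi.zero_apply, hx, Pi.sub_apply, ← inner_sub_left]
    by_cases h : ξ x = η x
    · rw [h, sub_self, sub_self, inner_zero_left]
    · exact (hop.mono x _ _ h).le
  · intro ξ η
    rw [hF]
    simp only [hF]
    set ζ := η - ξ with hζ
    have hbint : Integrable (fun x => β * (‖ξ x‖ + ‖ζ x‖) ^ p) μ := by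
      refine Integrable.const_mul ?_ β
      have h1 : MemLp (fun x => ‖ξ x‖ + ‖ζ x‖) (ENNReal.ofReal p) μ :=
        (Lp.memLp ξ).norm.add (Lp.memLp ζ).norm
      have h2 := h1.integrable_norm_rpow (ofReal_ne_zero' hp) ENNReal.ofReal_ne_top
      rw [toReal_ofReal' hp] at h2
      refine h2.congr (Eventually.of_forall fun x => ?_)
      show ‖‖ξ x‖ + ‖ζ x‖‖ ^ p = (‖ξ x‖ + ‖ζ x‖) ^ p
      rw [Real.norm_of_nonneg (by positivity)]
    have hle1 : ∀ᶠ t : ℝ in 𝓝[>] 0, t ≤ 1 := by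
      have : ∀ᶠ t : ℝ in 𝓝 0, t ≤ 1 := eventually_le_nhds (by norm_num)
      exact this.filter_mono nhdsWithin_le_nhds
    have hpos : ∀ᶠ t : ℝ in 𝓝[>] 0, 0 < t := eventually_mem_nhdsWithin
    have hae : ∀ t : ℝ, ∀ᵐ x ∂μ, (ξ + t • ζ : Lp (E n) (ENNReal.ofReal p) μ) x = ξ x + t • ζ x := by
      intro t
      filter_upwards [Lp.coeFn_add ξ (t • ζ), Lp.coeFn_smul t ζ] with x hx hx'
      rw [hx, Pi.add_apply, hx', Pi.smul_apply]
    have hcongr : ∀ t : ℝ, ∫ x, ⟪a x ((ξ + t • ζ : Lp (E n) (ENNReal.ofReal p) μ) x), ζ x⟫ ∂μ =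
        ∫ x, ⟪a x (ξ x + t • ζ x), ζ x⟫ ∂μ := by
      intro t
      refine integral_congr_ae ?_
      filter_upwards [hae t] with x hx
      rw [hx]
    simp only [hcongr]
    refine tendsto_integral_filter_of_dominated_convergence
      (fun x => β * (‖ξ x‖ + ‖ζ x‖) ^ p) ?_ ?_ hbint ?_
    · refine Eventually.of_forall fun t => ?_
      refine ((hint (ξ + t • ζ) ζ).1.congr ?_)
      filter_upwards [hae t] with x hx
      rw [hx]
    · filter_upwards [hle1, hpos] with t ht ht0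
      refine Eventually.of_forall fun x => ?_
      rw [Real.norm_eq_abs]
      have h1 : |⟪a x (ξ x + t • ζ x), ζ x⟫| ≤ ‖a x (ξ x + t • ζ x)‖ * ‖ζ x‖ :=
        abs_real_inner_le_norm _ _
      have h2 : ‖a x (ξ x + t • ζ x)‖ ≤ β * (‖ξ x‖ + ‖ζ x‖) ^ (p - 1) := by
        refine (hop.bdd x _).trans ?_
        refine mul_le_mul_of_nonneg_left ?_ hβ
        refine Real.rpow_le_rpow (norm_nonneg _) ?_ (by linarith)
        refine (norm_add_le _ _).trans ?_
        rw [norm_smul, Real.norm_of_nonneg ht0.le]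
        have := mul_le_mul_of_nonneg_right ht (norm_nonneg (ζ x))
        linarith
      have h3 : (‖ξ x‖ + ‖ζ x‖) ^ p = (‖ξ x‖ + ‖ζ x‖) ^ (p - 1) * (‖ξ x‖ + ‖ζ x‖) := by
        by_cases h0 : ‖ξ x‖ + ‖ζ x‖ = 0
        · rw [h0, mul_zero, Real.zero_rpow (by linarith)]
        · have h4 : 0 < ‖ξ x‖ + ‖ζ x‖ := lt_of_le_of_ne (by positivity) (Ne.symm h0)
          rw [← Real.rpow_add_one h4.ne']
          congr 1
          ring
      calc |⟪a x (ξ x + t • ζ x), ζ x⟫| ≤ ‖a x (ξ x + t • ζ x)‖ * ‖ζ x‖ := h1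
        _ ≤ (β * (‖ξ x‖ + ‖ζ x‖) ^ (p - 1)) * ‖ζ x‖ :=
            mul_le_mul_of_nonneg_right h2 (norm_nonneg _)
        _ ≤ (β * (‖ξ x‖ + ‖ζ x‖) ^ (p - 1)) * (‖ξ x‖ + ‖ζ x‖) := by
            refine mul_le_mul_of_nonneg_left ?_ (by positivity)
            linarith [norm_nonneg (ξ x)]
        _ = β * (‖ξ x‖ + ‖ζ x‖) ^ p := by rw [h3]; ring
    · refine Eventually.of_forall fun x => ?_
      have h1 : Tendsto (fun t : ℝ => ξ x + t • ζ x) (𝓝[>] 0) (𝓝 (ξ x)) := by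
        have h2 : Tendsto (fun t : ℝ => ξ x + t • ζ x) (𝓝 0) (𝓝 (ξ x + (0 : ℝ) • ζ x)) :=
          tendsto_const_nhds.add (tendsto_id.smul_const _)
        rw [zero_smul, add_zero] at h2
        exact h2.mono_left nhdsWithin_le_nhds
      exact (((hop.cont x).tendsto _).comp h1).inner tendsto_const_nhds

end Pool.Agent.Lib.MP_abd978_an.H65
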